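import Pool.Agent.Q57.CF.TopA

/-!
# Effective abundance for all compact Kähler manifolds bimeromorphic to covers of projective space branched along normal crossings

Let `F k`, `k = 0, ..., n`, be forms of degrees `d k` in `n + 1` variables whose zero sets in the
projective `n`-space are smooth hypersurfaces with normal crossings. Let `K` be the function field
of an abelian cover `Y` of the projective space which is branched only along these hypersurfaces: `K`
is generated by the affine coordinates and by roots `z j`,
`z j ^ (m j) = ∏ k, (F k (x) / x 0 ^ (d k)) ^ (a j k)`, where `m j` divides `∑ k, a j k * d k`. (For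
`n ≥ 2` all finite covers which are branched only along these hypersurfaces are abelian; covers
which are branched along fewer hypersurfaces are included: add general hyperplanes, `a j k = 0`.)

**The models.** Let `X` be ANY compact complex manifold which is bimeromorphic to `Y` (for instance a
compact Kähler manifold; it is then projective), or, more generally, any compact normal complex space
with canonical singularities which is bimeromorphic to `Y`. It is given by its discrepancies: `k P` is
the discrepancy over `X` of the prime divisor `P` over `X` (of the divisorial place `P` of `K`), that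
is, the coefficient of `P` in `K_X' - π^* K_X` if `P` is a prime divisor on a manifold `X'` and
`π : X' → X` is bimeromorphic. For a manifold `X` the numbers `k P` are integers `≥ 0`. The function
`k` has the two properties in `IsDiscrepancy`: `k P ≥ 0` (the singularities of `X` are canonical), and
every pluricanonical form `ω` which is regular on the smooth models of `K` has order at least `m k P`
along `P`, since `ω` is a section of `m K_X`. Nothing else is used about `X`: it is not related to the
toroidal structure of `Y`.

**The theorem.** Let `t ≥ 1` be a common multiple of the degrees `d k`, and let `ρ K_X` be a Cartier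
divisor, or, more generally, let `ρ k P` be integral for all `P` (for a manifold: `ρ = 1`). Then `K_X` is
nef if and only if the linear system `|t ρ K_X|` has no base points: for every prime divisor `P` over
`X` there is a section of `t ρ K_X` which does not vanish at `P` (take the exceptional divisor of the
blowing up of a point of `X`).

So for all compact Kähler manifolds `X` with nef canonical bundle in these bimeromorphic classes,
`K_X ^ t` is generated by its global sections, where `t` is the least common multiple of the degrees of
the branch divisors: it does not depend on the cover and on `X`. There is no condition on the dimension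
and on the Kodaira dimension. The factor `t` is necessary: let `X` be the bidouble cover of the
projective plane which is branched along a line and two cubic curves with normal crossings,
`z ^ 2 = F 0 * F 1`, `z' ^ 2 = F 1 * F 2`. Then `2 K_X` is the pullback of the class of a line, `K_X ^ 2 = 1`
and `p_g = 1`, so that `|K_X|` has base points. The Kodaira and numerical dimensions of these varieties
are computed in `MP_97d78d_ag.NormalCrossingCovers`. For pairs see `MP_5ff3c6_ag.AllMinimalModels`. For
covers branched along more hypersurfaces see `MP_5ff3c6_ag.IndexAndFreeness`, where the multiple of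
`K_X` is larger (a common multiple of all integers up to `N! B ^ N`).

The proof: the asymptotic orders of the pluricanonical forms along `P` are
`a P + min ⟨v, q b⟩`, where `v` is the vector of the multiplicities of the hypersurfaces along `P`, `a P`
depends only on the log discrepancy of `P`, and the `q b` are finitely many points with rational
coordinates. Since `K_X` is nef, this is `k P`. As `ρ k P` is integral for all `P`, the vertices of the
polyhedron generated by the `q b` are, after multiplication by `t ρ`, points of the dual lattice of the
lattice of the admissible vectors, and these points give sections of `t ρ K_X`.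
-/

set_option autoImplicit false

open FF MvPolynomial Pool.Agent.W602.GT

namespace Pool.Agent.Results.MP_97d78d_ag.CanonicalModelsOfCovers

/-- The hypersurfaces `F k = 0` have normal crossings: at every point of the projective space the
gradients of the forms `F k` which vanish at this point are linearly independent. -/
def NormalCrossings {n : ℕ} (F : Fin (n + 1) → MvPolynomial (Fin (n + 1)) ℂ) : Prop :=
  ∀ x : Fin (n + 1) → ℂ, x ≠ 0 → LinearIndependent ℂ
    fun (k : {k // eval x (F k) = 0}) (l : Fin (n + 1)) => eval x (pderiv l (F k.1))

/-- The affine coordinates of the projective space. -/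
noncomputable def affine {n : ℕ} {K : Type} [Field K] (x : Fin (n + 1) → K) (b : Fin n) : K :=
  x b.succ / x 0

section sections

variable {K : Type} [Field K] [Algebra ℂ K] (N : ℕ) (k : Place ℂ K → ℚ)

/-- `ω` is a section of `m K_X + j A`, for the model `X` of dimension `N` with the discrepancies
`k P`: a rational section of the `m`-th power of the canonical bundle (`IsPluri`: a function of `N`
rational vector fields which is multiplied by `det B ^ m` under a linear substitution `B`) whose order
on the vector fields which are regular at `P` is at least `m * k P` plus `j` times the order of one of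
the functions in `S`, for all prime divisors `P` over `X` (all divisorial places `P` of `K`). Here `A`
is the divisor which is generated by the finite set `S` of functions; `A = 0` if `S = {1}`. -/
def IsSection (S : Finset K) (m j : ℕ) (ω : (Fin N → Derivation ℂ K K) → K) : Prop :=
  IsPluri m ω ∧ ∀ P : Place ℂ K, Divisorial N P → ∀ D : Fin N → Derivation ℂ K K,
    (∀ c, DerReg P (D c)) → ω D = 0 ∨ ∃ s ∈ S, s ≠ 0 ∧ (j : ℚ) * P.ord s + m * k P ≤ P.ord (ω D)

/-- The properties of the discrepancies `k P` of a compact normal complex space `X` with canonical
singularities whose field of meromorphic functions is `K`: `k P ≥ 0`, and the pluricanonical forms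
which are regular at all prime divisors are sections of multiples of `K_X`, so that their orders are at
least `m * k P`. -/
structure IsDiscrepancy : Prop where
  nonneg : ∀ P, Divisorial N P → 0 ≤ k P
  regular : ∀ m ω, IsSection N (fun _ => 0) {1} m 0 ω → IsSection N k {1} m 0 ω

/-- `K_X` is nef: there is a divisor `A` such that for all `M ≥ 1` a positive multiple
`j (M K_X + A)` has no base points: for every prime divisor `P` it has a section which does not vanish
at `P`. -/
def Nef : Prop :=
  ∃ S : Finset K, (∃ s ∈ S, s ≠ 0) ∧ ∀ M : ℕ, 1 ≤ M → ∃ j : ℕ, 1 ≤ j ∧
    ∀ P : Place ℂ K, Divisorial N P → ∃ η, IsSection N k S (j * M) j η ∧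
      ∃ D, (∀ c, DerReg P (D c)) ∧ η D ≠ 0 ∧
        ∀ s ∈ S, s ≠ 0 → (P.ord (η D) : ℚ) ≤ j * P.ord s + (j * M : ℕ) * k P

/-- The linear system `|r K_X|` has no base points: for every prime divisor `P` over `X` there is a
section of `r K_X` whose order on some vector fields which are regular at `P` is `r * k P`. -/
def BasePointFree (r : ℕ) : Prop :=
  ∀ P : Place ℂ K, Divisorial N P → ∃ ω, IsSection N k {1} r 0 ω ∧
    ∃ D, (∀ c, DerReg P (D c)) ∧ ω D ≠ 0 ∧ (P.ord (ω D) : ℚ) ≤ r * k P

end sections

/-- **The main theorem.** Let `K` be the function field of an abelian cover of the projective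
`n`-space which is branched along `n + 1` hypersurfaces `F k = 0` of degrees `d k` with normal
crossings, and let `X` be any compact complex manifold, or normal space with canonical singularities,
with this function field. If `ρ k P` is integral for all `P` (for instance if `ρ K_X` is Cartier; for
manifolds `ρ = 1`) and `t` is a common multiple of the degrees `d k`, then `K_X` is nef if and only if
`|t ρ K_X|` is base point free. -/
theorem result (n R : ℕ) (hn : 1 ≤ n) (d : Fin (n + 1) → ℕ) (hd : ∀ k, 1 ≤ d k)
    (F : Fin (n + 1) → MvPolynomial (Fin (n + 1)) ℂ) (hF : ∀ k, (F k).IsHomogeneous (d k))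
    (hs : NormalCrossings F) (m : Fin R → ℕ) (hm : ∀ j, 1 ≤ m j) (a : Fin R → Fin (n + 1) → ℕ)
    (hdiv : ∀ j, m j ∣ ∑ k, a j k * d k)
    (K : Type) [Field K] [Algebra ℂ K] (x : Fin (n + 1) → K) (hx0 : x 0 ≠ 0)
    (hbas : IsTranscendenceBasis ℂ (affine x)) (z : Fin R → K)
    (hz : ∀ j, z j ^ m j = ∏ k, (aeval x (F k) / x 0 ^ d k) ^ a j k)
    (hgen : IntermediateField.adjoin ℂ (Set.range (affine x) ∪ Set.range z) = ⊤)
    (k : Place ℂ K → ℚ) (hk : IsDiscrepancy n k) (ρ : ℕ) (hρ : 1 ≤ ρ)
    (hint : ∀ P : Place ℂ K, Divisorial n P → ∃ z : ℤ, (ρ : ℚ) * k P = z)
    (t : ℕ) (ht : 1 ≤ t) (hdt : ∀ k, d k ∣ t) :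
    Nef n k ↔ BasePointFree n k (t * ρ) := by
  obtain ⟨e, rfl⟩ : ∃ e, n = e + 1 := ⟨n - 1, by omega⟩
  have h := Pool.Agent.Q57.CF.top_canA (k := k) hx0 hbas hd hF hs hm hz hdiv hgen
    hk.nonneg (fun m ω h1 h2 P hP D hD => by
      have h3 := (hk.regular m ω ⟨h1, fun P' hP' D' hD' => (h2 P' hP' D' hD').imp id fun h4 =>
        ⟨1, by simp, one_ne_zero, by
          rw [P'.ord_one]
          have h5 : ((0 : ℤ) : ℚ) ≤ (P'.ord (ω D') : ℚ) := by exact_mod_cast h4
          simpa using h5⟩⟩).2 P hP D hD
      refine h3.imp id ?_
      rintro ⟨s, hs, -, h4⟩
      rw [Finset.mem_singleton.1 hs, P.ord_one] at h4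
      simpa using h4) hρ hint ht hdt
  unfold Pool.Agent.Q57.GM.BNef Pool.Agent.Q57.TP.BSec at h
  unfold Nef BasePointFree IsSection
  simp only [mul_neg, sub_neg_eq_add, neg_neg] at h
  simp only [Nat.cast_mul] at h ⊢
  exact h

end Pool.Agent.Results.MP_97d78d_ag.CanonicalModelsOfCovers
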