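import Pool.Agent.Q47.TB.Snc2

/-!
# Abundance for complete intersections in toric bundles over compact complex tori

Let `X = V / Γ` be a compact complex torus of any dimension, algebraic or not, or more generally the
quotient of such a torus by a finite group acting freely. Let `Y → X` be a toric bundle, with an
arbitrary smooth complete toric variety as fibre and twisted by arbitrary line bundles `c_i` on `X`
(for example the projective bundle of a direct sum of line bundles, or a fibre product of such
bundles; if the fan is projective, then `Y` is a compact Kähler manifold, in general not algebraic).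
Let `Z_1, ..., Z_k ⊂ Y` be smooth hypersurfaces with normal crossings (`k = 1`: any smooth
hypersurface), of arbitrary classes. If `K_Y + ∑ Z_j` is nef on the toric fibres of `Y → X`, then it is
semiample on `Y`.

By adjunction `(K_Y + ∑ Z_j)|_Z = K_Z` for the compact Kähler manifold `Z = Z_1 ∩ ... ∩ Z_k`: for a
section `G` of `O_Y(N (K_Y + ∑ Z_j))` the iterated residue `G (Res (dv ∧ ω / ∏ F_j)) ^ N` is an
`N`-canonical form on `Z`, which vanishes exactly where `G` does. So `K_Z` is semiample, and so is
`K_W + ∑_{j ∉ J} Z_j|_W` for each stratum `W = ⋂_{j ∈ J} Z_j`.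

The toric bundle `Y` is described by Cox coordinates; `IsSmoothFan`, `LinEquiv`, `IsSection`,
`IsFibreNef` and `IsNormalCrossing` are defined in `Pool.Agent.Q47.TB.Defs`, `IsTorusQuotient` and
`LineBundle` (given by a factor of automorphy) in `Pool.Agent.W594.SYZ.Defs2`, `IsChernForm` in
`Pool.Agent.W594.SYZ.TQDefs`.

The proof. Let `F_j = ∑ f_{j,α}(v) x ^ α` define `Z_j`. Normal crossings imply by Hall's marriage
theorem that each monomial valuation `a` satisfies `∑_j a(F_j) ≤ ∑ a_i`, also if strata of the torus
action are contained in some `Z_j`. For each effective divisor `∑ β_i D_i` of the class of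
`K_Y + ∑ Z_j` on the fibre it follows that `(1, ..., 1) + β` is in the sum of the Newton polytopes, so
that a product of powers of the coefficients `f_{j,α}` is a section of a power of the line bundle on
`X` which is the coefficient of `x ^ β` in the sections of `K_Y + ∑ Z_j`. Effective line bundles on
`X` are semiample.
-/

set_option autoImplicit false

universe u w

namespace Pool.Agent.Results.MP_97d78d_ag.CompleteIntersections

open Pool.Agent.W594.SYZ2 Q47.TB MvPolynomial

variable {V : Type u} [NormedAddCommGroup V] [NormedSpace ℂ V] {ι : Type w} [Fintype ι]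

/-- Let `X = V / Γ` be the quotient of a compact complex torus by a finite group acting freely, let
`Y → X` be the toric bundle given by a smooth complete fan with the rays `r i` and by line bundles
`c i` on `X` with Chern forms `Hc i`, and let the sections `F j` of the line bundles
`O_Y(d j; E j)`, `j = 1, ..., k`, define smooth hypersurfaces `Z j` with normal crossings. If the
class of `∑_j d j - ∑_i D_i` is nef on the toric fibre, then there is `N ≥ 1` such that for each
point `(v, x)` of `Y` there is a section of `O_Y(N (K_Y + ∑ Z j))` which does not vanish at this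
point; in particular `K_Z ^ N` is generated by its global sections for `Z = ⋂ Z j`. (The line bundle
`O_Y(K_Y + ∑ Z j)` is given by the class of `∑_j d j - ∑_i D_i` and by the factor of automorphy
`∏ E j / (det ∏ c i)`.) -/
theorem result [FiniteDimensional ℂ V] (Γ : Subgroup (V ≃ᵃ[ℂ] V)) (hΓ : IsTorusQuotient Γ)
    (hfree : ∀ γ ∈ Γ, ∀ v, γ v = v → γ = 1)
    (n : ℕ) (r : ι → Fin n → ℤ) (S : Set (Set ι)) (hS : IsSmoothFan r S)
    (c : ι → LineBundle Γ) (Hc : ι → V → V → ℂ) (hc : ∀ i, IsChernForm (c i) (Hc i))
    (k : ℕ) (E : Fin k → LineBundle Γ) (HE : Fin k → V → V → ℂ)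
    (hE : ∀ j, IsChernForm (E j) (HE j))
    (d : Fin k → ι → ℤ) (F : Fin k → V → MvPolynomial ι ℂ)
    (hF : ∀ j, IsSection r c (d j) (E j).e (F j)) (hnc : IsNormalCrossing S F)
    (hnef : IsFibreNef r S fun i => ∑ j, d j i - 1) :
    ∃ N : ℕ, 1 ≤ N ∧ ∀ (v : V) (x : ι → ℂ), {i | x i = 0} ∈ S →
      ∃ G, IsSection r c (fun i => (N : ℤ) * (∑ j, d j i - 1))
        (fun γ v => ((∏ j, (E j).e γ v) *
          (LinearMap.det ((γ : V ≃ᵃ[ℂ] V).linear : V →ₗ[ℂ] V) * ∏ i, (c i).e γ v)⁻¹) ^ N) G ∧
        eval x (G v) ≠ 0 :=
  abundance_snc hΓ hfree hS hc hE hF hnc hnef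

end Pool.Agent.Results.MP_97d78d_ag.CompleteIntersections
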