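import Pool.Agent.Q36.GP.Cp

/-!
# Abundance and the Iitaka fibration of varieties dominated by products of varieties

Let `W 1, ..., W s` be projective manifolds of dimensions `d i`, each of them one of the following:

* a manifold whose canonical map is generically finite; then let `a i = d i` and `c i = 0`, or more
  generally let the canonical forms separate `c i + 1` points and tangent vectors in an open set, or
* a manifold with `p_g > 0` and `ν = 0` (an abelian variety, a Calabi-Yau or hyperkähler manifold, or
  any product of such manifolds); then let `a i = 0` and `c i = 0`, or
* a curve of gonality at least `c i + 2`; let `a i = 1`, or `a i = c i = 0` if it is elliptic.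

Let `W 1 × ... × W s ⇢ X` be any dominant rational map of finite degree to a projective manifold `X` (not
necessarily a quotient by a group). For a general point `x` of `X` let `r_i` be the number of
different `i`-th coordinates of the points over `x`, and for a set `Q` of indices let `r(Q)` be the
number of the points over `x` which have the same `j`-th coordinates as a given one of them for all `j`
outside `Q`. Assume that

* `2 r_i ≤ c i + 1` for all `i` in some set `B` (which may be empty), and
* for all `Q` disjoint from `B`: `r(Q) = 1`, or `2 r(Q) - 1 ≤ ∑ j ∈ Q, c j`.

For instance this holds for all maps of degree `δ` if the canonical forms of each factor separate `2 δ`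
points and tangent vectors (or the factor is a curve of gonality greater than `2 δ`); and in general
the points of a general fibre are to be determined by their coordinates in the factors with
`c i > 0`.

The theorem. Let `h = ∑ a i`. Then `κ(X) = ν(X) = h`: the canonical map of `X` has an image of dimension
`h`, and `ν(X) ≤ h`. The Iitaka fibration is `X ⇢ I` with `dim I = h`, where

* the canonical map of `I` is generically finite; so `I` is of general type;
* the quotients of pluricanonical forms of `X` are functions on `I`;
* the function field of `I` is the intersection of those of `X` and of the product `N` of the factors of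
  general type; `I` is dominated by `N`, and the base change of `X ⇢ I` by `N ⇢ I` is birational to the
  product of all factors. So the general fibre is birational to the product of the other factors: the
  Iitaka fibration is birationally isotrivial.

If `K_X` is nef, it is semiample by `κ(X) = ν(X)` and Kawamata's theorem, `X → I` can be taken to be the
morphism given by a multiple of `K_X`, and it is an isotrivial fibration onto a variety of general type
of dimension `ν(X)`, while in general only `K_I + D` is big for some divisor `D` (elliptic surfaces of
Kodaira dimension one may have a rational base curve).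

Proof. Exterior products of canonical forms of the factors are canonical forms of the product, and
their traces are canonical forms of `X`. If a vector field kills all their quotients, there is a
relation between the values and the derivatives of the forms at the points of a general fibre. Hall's
theorem on the marriage problem and the separation properties are used to isolate one point of the
fibre and one factor in this relation. This gives `h` algebraically independent quotients. For
`ν(X) ≤ h` it is shown, with the extensions of the places of `V` and of `W` to `V × W`, that the
coefficients of a section on a product `V × W` are sections on `V` and on `W`. So the quotients of the pluricanonical forms of `X` are functions on the product of the factors of general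
type, in which the functions of `X` define a subfield `K`. The conditions for `X` imply the same
conditions for the map of degree `[N : K]` from the product of the factors of general type, and thus
the canonical map of the base is generically finite.
-/

set_option autoImplicit false
set_option linter.overlappingInstances false

open FF IntermediateField Pool.Agent.W619.PQ Pool.Agent.W619.TW

namespace Pool.Agent.Results.MP_97d78d_ag.IitakaFibrationsOfProducts

/-- Every nonconstant function on the curve with function field `F` has degree at least `γ`. -/
def GonalityGe (k F : Type) [Field k] [Field F] [Algebra k F] (γ : ℕ) : Prop :=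
  ∀ b : F, Transcendental k b → γ ≤ Module.finrank k⟮b⟯ F

/-- The canonical map of the projective manifolds of dimension `n` with function field `K` has an
image of dimension at least `h`: there are `h + 1` canonical forms whose ratios to the first one are
algebraically independent. For `h = 0`: `p_g > 0`. -/
def CanonicalImageGe (k K : Type) [Field k] [Field K] [Algebra k K] (n h : ℕ) : Prop :=
  ∃ ω : Fin (h + 1) → (Fin n → Derivation k K K) → K,
    (∀ l, IsSec k K n (fun _ => False) {1} 1 0 (ω l)) ∧
    ∃ D, (∀ l, ω l D ≠ 0) ∧ AlgebraicIndependent k (fun l : Fin h => ω l.succ D / ω 0 D)

/-- The quotients of two sections of the same multiple of the canonical class of the projective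
manifolds of dimension `n` with function field `L` belong to the subfield `K`. -/
def ContainsQuotients {k L : Type} [Field k] [Field L] [Algebra k L] (n : ℕ)
    (K : IntermediateField k L) : Prop :=
  ∀ (m : ℕ) (ω ω' : (Fin n → Derivation k L L) → L), IsSec k L n (fun _ => False) {1} m 0 ω →
    IsSec k L n (fun _ => False) {1} m 0 ω' → ∀ D, ω D ≠ 0 → ω' D / ω D ∈ K

/-- The coefficients of the canonical forms of the projective manifold of dimension `d` with function
field `K`, with respect to the rational vector fields `E`. -/
def canonicalForms (k : Type) {K : Type} [Field k] [Field K] [Algebra k K] (d : ℕ)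
    (E : Fin d → Derivation k K K) : Set K :=
  {f | ∃ η : (Fin d → Derivation k K K) → K, IsPluriForm k K d 1 η ∧
    (∀ u : Place k K, IsDivisorial u d → RegularAt u d η) ∧ η E = f}

/-- The canonical forms of the manifold with function field `K` separate `m` points and tangent
vectors in an open set: let `φ i` be different generic points, with coordinates in a field `Ω`, with
multiplicities `1` or `2` of sum at most `m`, and `θ i` tangent vectors at the points of multiplicity
`2`; then the values at the `φ i` are linearly independent of each other and of the derivatives in
the directions `θ i ≠ 0`. (For the coefficients with respect to a frame `E`; this does not depend on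
the choice of the frame.) -/
def Separates (k K : Type) [Field k] [Field K] [Algebra k K] (d m : ℕ) : Prop :=
  ∀ (y : Fin d → K) (E : Fin d → Derivation k K K), IsTranscendenceBasis k y →
    (∀ i j, E i (y j) = if i = j then 1 else 0) →
    ∀ (Ω : Type) [Field Ω] [Algebra k Ω] (ι : Type) [Fintype ι] (φ : ι → (K →ₐ[k] Ω)) (μ : ι → ℕ)
      (c : ι → Ω) (θ : ι → (K →ₗ[k] Ω)), Function.Injective φ → (∀ i, μ i = 1 ∨ μ i = 2) →
      ∑ i, μ i ≤ m → (∀ i, ∀ a b, θ i (a * b) = φ i a * θ i b + φ i b * θ i a) →
      (∀ i, μ i = 1 → θ i = 0) →
      (∀ f ∈ canonicalForms k d E, ∑ i, (c i * φ i f + θ i f) = 0) → ∀ i, c i = 0 ∧ θ i = 0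

/-- A factor, with function field `W` and dimension `d`, and the numbers `a` and `c`, is one of the
following: a manifold with a generically finite canonical map and `a = d`, where `c = 0` or the
canonical forms separate `c + 1` points and tangent vectors; or a manifold with `p_g > 0` and `ν = 0`,
and `a = 0`, `c = 0`; or a curve of gonality at least `c + 2`, which is elliptic and `a = c = 0`, or not
elliptic and `a = 1`. -/
def IsFactor {k M : Type} [Field k] [Field M] [Algebra k M] (W : IntermediateField k M)
    (d a c : ℕ) : Prop :=
  (CanonicalImageGe k W d a ∧ NumLe k W d (fun _ => False) a ∧
    ((a = d ∧ (c = 0 ∨ Separates k W d (c + 1))) ∨ (a = 0 ∧ c = 0))) ∨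
  (IsFF k W ∧ GonalityGe k W (c + 2) ∧
    ((IsElliptic W ∧ a = 0 ∧ c = 0) ∨ (¬ IsElliptic W ∧ a = 1)))

/-- The function field of the product of the factors of general type, with `a i = d i`. -/
def generalTypePart {k M : Type} [Field k] [Field M] [Algebra k M] {s : ℕ}
    (W : Fin s → IntermediateField k M) (d a : Fin s → ℕ) : IntermediateField k M :=
  ⨆ i : {i : Fin s // a i = d i}, W i.1

section

variable {k : Type} (L : Type) {M : Type} [Field k] [Field L] [Field M] [Algebra k L] [Algebra k M]
  [Algebra L M]

/-- The number of different coordinates in the factor with function field `F` on a general fibre of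
`Z ⇢ X`: the degree over `X` of the image of `Z` in the product of `X` and the factor. -/
noncomputable def coordinates (F : IntermediateField k M) : ℕ :=
  Module.finrank L (IntermediateField.adjoin L (F : Set M))

/-- The number of the points of a general fibre of `Z ⇢ X` with the same coordinates outside `Q` as a
given one: the degree of `Z` over its image in the product of `X` and the factors `j ∉ Q`. -/
noncomputable def agreeing {s : ℕ} (W : Fin s → IntermediateField k M) (Q : Finset (Fin s)) : ℕ :=
  Module.finrank (IntermediateField.adjoin L {z : M | ∃ j, j ∉ Q ∧ z ∈ W j}) M

end

/-- **Abundance and the Iitaka fibration for varieties dominated by products.** Let `W i` (`i < s`) be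
the function fields of projective manifolds of dimensions `d i` over an algebraically closed field of
characteristic zero, each of them a factor with numbers `a i`, `c i` as in `IsFactor`: with generically
finite canonical map (`a i = d i`) and `c i = 0` or canonical forms which separate `c i + 1` points and
tangent vectors, or with `p_g > 0` and `ν = 0` (`a i = c i = 0`), or a curve of gonality at least
`c i + 2`. Let `M` be the function field of the product, of dimension `∑ d i`, and `L` the function
field of a projective manifold `X` with a dominant rational map of finite degree from the product to
`X`. Let `B` be a set of indices such that twice the number of the `i`-th coordinates on a general fibre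
is at most `c i + 1` for `i ∈ B`, and assume that for every set `Q` of indices disjoint from `B` the
number `r(Q)` of the points of a general fibre with the same coordinates outside `Q` as a given one
satisfies `r(Q) = 1` or `2 r(Q) - 1 ≤ ∑ j ∈ Q, c j`. Let `h = ∑ a i`.

Then the dimension of the canonical image of `X` is at least `h` and `ν(X) ≤ h`, so that
`κ(X) = ν(X) = h`. There is a fibration `X ⇢ I`, with function field `K` of the base algebraically
closed in `L`, such that `dim I = h`, the canonical map of `I` is generically finite, all quotients of
pluricanonical forms of `X` belong to `K`, and for the function field `N` of the product of the factors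
with `a i = d i`: `K = L ∩ N`, `N` has transcendence degree `h`, and `L N = M`. -/
theorem result {k L M : Type} [Field k] [CharZero k] [IsAlgClosed k] [Field L] [Field M]
    [Algebra k L] [Algebra k M] [Algebra L M] [IsScalarTower k L M] [FiniteDimensional L M]
    (s : ℕ) (d a c : Fin s → ℕ) (W : Fin s → IntermediateField k M)
    (hess : ∀ i, Algebra.EssFiniteType k (W i)) (hd : ∀ i, Algebra.trdeg k (W i) = d i)
    (hM : Algebra.trdeg k M = (∑ i, d i : ℕ)) (hsup : ⨆ i, W i = ⊤)
    (hW : ∀ i, IsFactor (W i) (d i) (a i) (c i))
    (B : Finset (Fin s)) (hB : ∀ i ∈ B, 2 * coordinates L (W i) ≤ c i + 1)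
    (hQ : ∀ Q : Finset (Fin s), Disjoint Q B →
      agreeing L W Q = 1 ∨ 2 * agreeing L W Q ≤ 1 + ∑ j ∈ Q, c j) :
    CanonicalImageGe k L (∑ i, d i) (∑ i, a i) ∧
    NumLe k L (∑ i, d i) (fun _ => False) (∑ i, a i) ∧
    ∃ K : IntermediateField k L, (∀ x : L, IsAlgebraic K x → x ∈ K) ∧
      Algebra.EssFiniteType k K ∧ Algebra.trdeg k K = (∑ i, a i : ℕ) ∧
      CanonicalImageGe k K (∑ i, a i) (∑ i, a i) ∧
      ContainsQuotients (∑ i, d i) K ∧
      (∀ x : L, x ∈ K ↔ algebraMap L M x ∈ generalTypePart W d a) ∧
      Algebra.trdeg k (generalTypePart W d a) = (∑ i, a i : ℕ) ∧
      IntermediateField.adjoin L (generalTypePart W d a : Set M) = ⊤ := by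
  classical
  have hd1 : ∀ i, IsFF k (W i) → d i = 1 := by
    intro i hi
    have h4 := IsFF.trdeg (k := k) (K := W i)
    rw [hd i] at h4
    exact_mod_cast h4
  have hg : ∀ i, Q36.GP.Gfac k (W i) (d i) (c i) (a i) := by
    intro i
    rcases hW i with ⟨h1, h2, h3⟩ | ⟨h1, h2, h3⟩
    · refine Q36.GP.gfac_var ?_ h1 h2
      rcases h3 with ⟨-, h3⟩ | ⟨-, h3⟩
      · exact h3
      · exact Or.inl h3
    · have h4 := Q36.GP.gfac_curve (W i) (hd i) (c := c i) h2
      rcases h3 with ⟨h5, h6, -⟩ | ⟨h5, h6⟩
      · rw [if_pos h5] at h4
        rw [h6]
        exact h4
      · rw [if_neg h5] at h4
        rw [h6]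
        exact h4
  have hac : ∀ i, a i = d i ∨ (a i = 0 ∧ c i = 0) := by
    intro i
    rcases hW i with ⟨-, -, h3⟩ | ⟨h1, -, h3⟩
    · exact h3.imp_left And.left
    · rcases h3 with ⟨-, h6, h7⟩ | ⟨-, h6⟩
      · exact Or.inr ⟨h6, h7⟩
      · left
        rw [h6, hd1 i h1]
  obtain ⟨h1, h2⟩ := Q36.GP.imgP (L := L) W hd hM hsup hg B hB hQ
  obtain ⟨K, h3, h4, h5, h6, h7, h8, h9, h10, -⟩ :=
    Q36.GP.coreP (L := L) W hd hM hsup hg hac B hB hQ
  exact ⟨h1, h2, K, h3, h4, h5, h6, h7, h8, h9, h10⟩

end Pool.Agent.Results.MP_97d78d_ag.IitakaFibrationsOfProducts
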