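import Pool.Agent.Q41.AB.Fy

/-!
# Kodaira dimension and numerical dimension of abelian covers

Let `K` be the function field of an abelian cover of the product of the projective spaces of the
dimensions `n l`, branched along any number `N` of hypersurfaces `F c = 0` with normal crossings, of any
multidegrees `d c`: `K` is generated by the affine coordinates `x` and by roots `z j`,
`z j ^ m j = ∏ c, F c (x) ^ a j c` (by Kummer theory all abelian covers are of this form). Let `V` be any
smooth projective variety with the function field `K`; more generally let `(V, D)` be a log smooth pair
such that `D` is the preimage of the hypersurfaces `F c = 0`, `c ∈ S` (with coefficients one). The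
definitions of covers, normal crossings and of the boundary are in `Pool.Agent.Q41.RC.Defs`.

**Theorem.** If `K_V + D` is pseudo-effective (for instance nef), then there is a number `q` such that
`h⁰ (m (K_V + D) + A) ≤ C m ^ q` for all `m ≥ 1`, for all divisors `A` (with `C` depending on `A`), and
such that the image of the rational map which is given by the linear system of `M (K_V + D)` has at
least the dimension `q`. So the Kodaira dimension and the numerical dimension of `K_V + D` are both equal
to `q`, and the explicit multiple `M (K_V + D)` computes the Iitaka fibration: every positive `M` will do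
which is a multiple of all `t ≤ N! B ^ N`, where `B` is a bound for all degrees `d c l` and for the
exponent `E` of the cover (all `E * a j c` are multiples of `m j`). If `K_V` is nef, then `K_V` is
semiample by a theorem of Kawamata.

**Proof.** By the extremal argument (bend and break for forms along the strata of the hypersurfaces, see
`Pool.Agent.Results.MP_badc2d_ag.NormalCrossingCovers`) the asymptotic orders of vanishing of `K_V + D`
at all prime divisors `P` are those of finitely many monomial sections of `M (K_V + D)`, up to an error
which is bounded by the orders at `P` of finitely many functions which do not depend on `P`. So the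
sections of `m (K_V + D) + A` are, divided by a power of one of the monomial sections, functions whose
poles are bounded by `m / M` times the poles of the quotients of the monomial sections, plus a fixed
divisor. The number of linearly independent functions with these poles is counted with the help of a
curve through many general points in the fibres of the rational map which is given by these quotients.
-/

set_option autoImplicit false

open FF MvPolynomial Pool.Agent.W602.GT Pool.Agent.Q41.RC.Def

namespace Pool.Agent.Results.MP_97d78d_ag.KodairaNumerical

section sections

/-- `ω` is a section of `m (K_V + D) + j A`: a rational section of the `m`-th power of the canonical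
bundle (`IsPluri`: a function of `w` rational vector fields which is multiplied by `det B ^ m` under
a linear substitution `B`) whose order on the vector fields which are regular at `P` is at least `j`
times the order of one of the functions in `S`, minus `m` times the coefficient `δ P` of `P` in the
boundary, for all prime divisors `P` (all divisorial places `P` of `K`). Here `A` is the divisor which
is generated by the finite set `S` of functions; `A = 0` if `S = {1}`. -/
def IsSection {K : Type} [Field K] [Algebra ℂ K] (w : ℕ) (δ : Place ℂ K → ℚ) (S : Finset K)
    (m j : ℕ) (ω : (Fin w → Derivation ℂ K K) → K) : Prop :=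
  IsPluri m ω ∧ ∀ P : Place ℂ K, Divisorial w P → ∀ D : Fin w → Derivation ℂ K K,
    (∀ c, DerReg P (D c)) → ω D = 0 ∨ ∃ s ∈ S, s ≠ 0 ∧
      (j : ℚ) * P.ord s - m * δ P ≤ P.ord (ω D)

variable (w : ℕ) {K : Type} [Field K] [Algebra ℂ K] (δ : Place ℂ K → ℚ)

/-- `K_V + D` is pseudo-effective: there is a divisor `A` such that for all `M` a positive multiple of
`M (K_V + D) + A` is effective. -/
def Pseudoeffective : Prop :=
  ∃ S : Finset K, ∀ M : ℕ, ∃ j : ℕ, 1 ≤ j ∧ ∃ ω : (Fin w → Derivation ℂ K K) → K, ω ≠ 0 ∧
    IsSection w δ S (j * M) j ω

/-- The image of the rational map which is given by the linear system of `M (K_V + D)` has at least the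
dimension `q`: there are `q + 1` sections whose quotients are algebraically independent. -/
def ImageDimGe (M q : ℕ) : Prop :=
  ∃ ω : Fin (q + 1) → (Fin w → Derivation ℂ K K) → K, (∀ b, IsSection w δ {1} M 1 (ω b)) ∧
    ∃ D, ω 0 D ≠ 0 ∧ AlgebraicIndependent ℂ (fun b : Fin q => ω b.succ D / ω 0 D)

/-- The numerical dimension of `K_V + D` is at most `q`: for every divisor `A` there is a constant `C`
such that `h⁰ (m (K_V + D) + A) ≤ C m ^ q` for all `m ≥ 1`. -/
def NumericalDimLe (q : ℕ) : Prop :=
  ∀ S : Finset K, ∃ C : ℕ, ∀ m h : ℕ, 1 ≤ m →
    (∃ ω : Fin h → (Fin w → Derivation ℂ K K) → K, LinearIndependent ℂ ω ∧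
      ∀ l, IsSection w δ S m 1 (ω l)) → h ≤ C * m ^ q

end sections

open scoped Classical in
/-- The coefficients of the boundary: `1` for the prime divisors over the hypersurfaces `F c = 0`,
`c ∈ S`, and `0` for the others. -/
noncomputable def coefficient {r N : ℕ} {n : Fin r → ℕ} (d : Fin N → Fin r → ℕ)
    (F : Fin N → MvPolynomial (Coord n) ℂ) (S : Set (Fin N)) {K : Type} [Field K] [Algebra ℂ K]
    (x : Coord n → K) (P : Place ℂ K) : ℚ :=
  if Boundary d F S x P then 1 else 0

/-- **Kodaira dimension and numerical dimension.** Let `K` be the function field of an abelian cover of
the product of the projective spaces of the dimensions `n l`, `l < r`, branched at most along the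
hypersurfaces `F c = 0`, `c < N`, of the multidegrees `d c`, which have normal crossings, and let
`(V, D)` be a log smooth model of `K` such that `D` is the preimage of the hypersurfaces `F c = 0` with
`c ∈ S`. Let `B` be a bound for the degrees and for a number `E ≥ 1` such that all `E * a j c` are
multiples of `m j`, and let `M > 0` be a multiple of all `t ≤ N! B ^ N`. If `K_V + D` is
pseudo-effective, then its Kodaira dimension, its numerical dimension and the dimension of the image of
the rational map which is given by `M (K_V + D)` are equal. -/
theorem result {r N R : ℕ} (hr : 0 < r) {n : Fin r → ℕ} {d : Fin N → Fin r → ℕ}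
    {F : Fin N → MvPolynomial (Coord n) ℂ} {m : Fin R → ℕ} {a : Fin R → Fin N → ℕ} {K : Type}
    [Field K] [Algebra ℂ K] {x : Coord n → K} {z : Fin R → K} (h : IsCover d F m a x z)
    (hF : NormalCrossings F) {B E M : ℕ} (hE0 : 0 < E) (hEB : E ≤ B)
    (hE : ∀ j c, m j ∣ E * a j c) (hB : ∀ c l, d c l ≤ B) (hM : 0 < M)
    (hMd : ∀ t, 0 < t → t ≤ N.factorial * B ^ N → t ∣ M) (S : Set (Fin N))
    (hps : Pseudoeffective (∑ l, n l) (coefficient d F S x)) :
    ∃ q : ℕ, ImageDimGe (∑ l, n l) (coefficient d F S x) M q ∧
      NumericalDimLe (∑ l, n l) (coefficient d F S x) q :=
  Pool.Agent.Q41.AB.final_kodnum Pool.Agent.Q41.AB.combx' Pool.Agent.Q210.AB.cnt h hF hr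
    (fun _ hP => if_pos hP) (fun _ hP => if_neg hP) hps hE0 hEB hE hB hM hMd

end Pool.Agent.Results.MP_97d78d_ag.KodairaNumerical
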